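import Pool.Agent.X252.GCCore

/-!
# The threshold for classifying the permutation groups which are not Galois closed

`f(d) = 2 d + 1` for every `d ≥ 1`.
-/

namespace Pool.Agent.Results.MP_1328b3_al.Threshold

open Equiv Pool.Agent.X252.GC

variable {n : ℕ}

/-- The Galois closure of `G` over a set with `k` elements: all permutations under which every
function of `n` variables on that set, with values in that set, which is invariant under `G` is
invariant. -/
def galoisClosure (k : ℕ) (G : Subgroup (Perm (Fin n))) : Set (Perm (Fin n)) :=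
  {σ | ∀ f : (Fin n → Fin k) → Fin k,
    (∀ g ∈ G, ∀ a : Fin n → Fin k, f (fun i => a (g i)) = f a) →
      ∀ a : Fin n → Fin k, f (fun i => a (σ i)) = f a}

/-- `G` is Galois closed over a set with `k` elements. -/
def GaloisClosed (k : ℕ) (G : Subgroup (Perm (Fin n))) : Prop :=
  galoisClosure k G = (G : Set (Perm (Fin n)))

/-- The group `S_B × L`, where `L` is a group of permutations of the complement of `B`. -/
def symProd (B : Finset (Fin n)) (L : Subgroup (Perm {x // x ∉ B})) : Subgroup (Perm (Fin n)) :=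
  ((⊤ : Subgroup (Perm {x // x ∈ B})).prod L).map (Perm.subtypeCongrHom fun x => x ∈ B)

/-- The group `A_B × L`, where `L` is a group of permutations of the complement of `B`. -/
def altProd (B : Finset (Fin n)) (L : Subgroup (Perm {x // x ∉ B})) : Subgroup (Perm (Fin n)) :=
  ((alternatingGroup {x // x ∈ B}).prod L).map (Perm.subtypeCongrHom fun x => x ∈ B)

/-- `G` is a proper subgroup of `S_B × L` whose projections to `S_B` and to `L` are surjective. -/
def ProperSubdirect (G : Subgroup (Perm (Fin n))) (B : Finset (Fin n))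
    (L : Subgroup (Perm {x // x ∉ B})) : Prop :=
  G < symProd B L ∧
    (∀ β : Perm {x // x ∈ B}, ∃ l : Perm {x // x ∉ B}, Perm.subtypeCongr β l ∈ G) ∧
    ∀ l ∈ L, ∃ β : Perm {x // x ∈ B}, Perm.subtypeCongr β l ∈ G

/-- The statement `T(n, d)`. -/
def T (n d : ℕ) : Prop :=
  ∀ G : Subgroup (Perm (Fin n)), ¬ GaloisClosed (n - d) G ↔
    ∃ B : Finset (Fin n), Bᶜ.card < d ∧ ∃ L : Subgroup (Perm {x // x ∉ B}),
      G = altProd B L ∨ ProperSubdirect G B L

/-! ### The Galois closure and orbits of colourings -/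

lemma mem_closure {k : ℕ} (hk : 2 ≤ k) (G : Subgroup (Perm (Fin n))) (σ : Perm (Fin n)) :
    σ ∈ galoisClosure k G ↔ ∀ a : Fin n → Fin k, ∃ g ∈ G, ∀ i, a (σ i) = a (g i) := by
  classical
  constructor
  · intro hσ a
    let f : (Fin n → Fin k) → Fin k := fun x =>
      if ∃ g ∈ G, ∀ i, x i = a (g i) then ⟨0, by omega⟩ else ⟨1, by omega⟩
    have hf : ∀ g ∈ G, ∀ x : Fin n → Fin k, f (fun i => x (g i)) = f x := by
      intro g hg x
      have hiff : (∃ g' ∈ G, ∀ i, x (g i) = a (g' i)) ↔ (∃ g' ∈ G, ∀ i, x i = a (g' i)) := by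
        constructor
        · rintro ⟨g', hg', hx⟩
          refine ⟨g' * g⁻¹, G.mul_mem hg' (G.inv_mem hg), fun i => ?_⟩
          have := hx (g⁻¹ i)
          simpa using this
        · rintro ⟨g', hg', hx⟩
          exact ⟨g' * g, G.mul_mem hg' hg, fun i => by simpa using hx (g i)⟩
      simp only [f, hiff]
    have h1 := hσ f hf a
    have h2 : f a = ⟨0, by omega⟩ := by
      simp only [f]
      rw [if_pos ⟨1, G.one_mem, fun i => rfl⟩]
    rw [h2] at h1
    by_contra hcon
    have h3 : f (fun i => a (σ i)) = ⟨1, by omega⟩ := by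
      simp only [f]
      rw [if_neg hcon]
    rw [h3] at h1
    exact absurd (congrArg Fin.val h1) (by simp)
  · intro h f hf a
    obtain ⟨g, hg, hag⟩ := h a
    rw [show (fun i => a (σ i)) = fun i => a (g i) from funext hag]
    exact hf g hg a

lemma subset_closure (k : ℕ) (G : Subgroup (Perm (Fin n))) :
    (G : Set (Perm (Fin n))) ⊆ galoisClosure k G := fun g hg _ hf a => hf g hg a

lemma not_closed_iff {k : ℕ} (hk : 2 ≤ k) (G : Subgroup (Perm (Fin n))) :
    ¬ GaloisClosed k G ↔ ∃ σ : Perm (Fin n), σ ∉ G ∧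
      ∀ a : Fin n → Fin k, ∃ g ∈ G, ∀ i, a (σ i) = a (g i) := by
  constructor
  · intro h
    by_contra hcon
    refine h (Set.Subset.antisymm (fun σ hσ => ?_) (subset_closure k G))
    by_contra hσG
    exact hcon ⟨σ, hσG, (mem_closure hk G σ).1 hσ⟩
  · rintro ⟨σ, hσ, ha⟩ hcl
    refine hσ ?_
    have : σ ∈ galoisClosure k G := (mem_closure hk G σ).2 ha
    rw [hcl] at this
    exact this

/-- Colourings with at most `k` values. -/
lemma exists_colour {k : ℕ} (c : Fin n → Fin n) (hc : (Finset.univ.image c).card ≤ k) :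
    ∃ a : Fin n → Fin k, ∀ i j, a i = a j ↔ c i = c j := by
  classical
  let e := (Finset.univ.image c).equivFin
  refine ⟨fun i => Fin.castLE hc (e ⟨c i, Finset.mem_image_of_mem _ (Finset.mem_univ _)⟩),
    fun i j => ?_⟩
  rw [Fin.castLE_inj, e.apply_eq_iff_eq]
  exact ⟨fun h => congrArg Subtype.val h, fun h => Subtype.ext h⟩

lemma exists_y {k : ℕ} {G : Subgroup (Perm (Fin n))} {σ : Perm (Fin n)}
    (ha : ∀ a : Fin n → Fin k, ∃ g ∈ G, ∀ i, a (σ i) = a (g i)) (c : Fin n → Fin n)
    (hc : (Finset.univ.image c).card ≤ k) : ∃ y, σ⁻¹ * y ∈ G ∧ ∀ x, c (y x) = c x := by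
  obtain ⟨a, hac⟩ := exists_colour c hc
  obtain ⟨g, hg, hag⟩ := ha a
  refine ⟨σ * g⁻¹, by simpa using hg, fun x => ?_⟩
  have := (hac _ _).1 (hag (g⁻¹ x))
  simpa using this

/-! ### Products -/

lemma mem_symProd {B : Finset (Fin n)} {L : Subgroup (Perm {x // x ∉ B})} {σ : Perm (Fin n)} :
    σ ∈ symProd B L ↔ ∃ β : Perm {x // x ∈ B}, ∃ l ∈ L, Perm.subtypeCongr β l = σ := by
  unfold symProd
  rw [Subgroup.mem_map]
  constructor
  · rintro ⟨⟨β, l⟩, h, rfl⟩
    exact ⟨β, l, (Subgroup.mem_prod.1 h).2, rfl⟩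
  · rintro ⟨β, l, hl, rfl⟩
    exact ⟨(β, l), Subgroup.mem_prod.2 ⟨Subgroup.mem_top _, hl⟩, rfl⟩

lemma mem_altProd {B : Finset (Fin n)} {L : Subgroup (Perm {x // x ∉ B})} {σ : Perm (Fin n)} :
    σ ∈ altProd B L ↔ ∃ β ∈ alternatingGroup {x // x ∈ B}, ∃ l ∈ L,
      Perm.subtypeCongr β l = σ := by
  unfold altProd
  rw [Subgroup.mem_map]
  constructor
  · rintro ⟨⟨β, l⟩, h, rfl⟩
    exact ⟨β, (Subgroup.mem_prod.1 h).1, l, (Subgroup.mem_prod.1 h).2, rfl⟩
  · rintro ⟨β, hβ, l, hl, rfl⟩
    exact ⟨(β, l), Subgroup.mem_prod.2 ⟨hβ, hl⟩, rfl⟩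

lemma congr_mul {p : Fin n → Prop} [DecidablePred p] (β β' : Perm {x // p x})
    (l l' : Perm {x // ¬ p x}) :
    Perm.subtypeCongr β l * Perm.subtypeCongr β' l' = Perm.subtypeCongr (β * β') (l * l') :=
  ((Perm.subtypeCongrHom p).map_mul (β, l) (β', l')).symm

lemma congr_inv {p : Fin n → Prop} [DecidablePred p] (β : Perm {x // p x})
    (l : Perm {x // ¬ p x}) :
    (Perm.subtypeCongr β l)⁻¹ = Perm.subtypeCongr β⁻¹ l⁻¹ :=
  ((Perm.subtypeCongrHom p).map_inv (β, l)).symm

lemma congr_inj {p : Fin n → Prop} [DecidablePred p] {β β' : Perm {x // p x}}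
    {l l' : Perm {x // ¬ p x}} (h : Perm.subtypeCongr β l = Perm.subtypeCongr β' l') :
    β = β' ∧ l = l' := by
  have := Perm.subtypeCongrHom_injective p (a₁ := (β, l)) (a₂ := (β', l')) h
  exact Prod.mk.inj this

lemma congr_one {p : Fin n → Prop} [DecidablePred p] :
    Perm.subtypeCongr (1 : Perm {x // p x}) (1 : Perm {x // ¬ p x}) = 1 :=
  (Perm.subtypeCongrHom p).map_one

lemma congr_swap {p : Fin n → Prop} [DecidablePred p] (a b : {x // p x}) :
    Perm.subtypeCongr (swap a b) (1 : Perm {x // ¬ p x}) = swap (a : Fin n) b := by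
  ext x
  by_cases hx : p x
  · rw [Perm.subtypeCongr.left_apply _ _ hx, coe_swap]
  · rw [Perm.subtypeCongr.right_apply _ _ hx, swap_apply_of_ne_of_ne]
    · rfl
    · rintro rfl; exact hx a.2
    · rintro rfl; exact hx b.2

/-- Every permutation preserving `B` splits. -/
lemma exists_split {B : Finset (Fin n)} {g : Perm (Fin n)} (hg : ∀ x, g x ∈ B ↔ x ∈ B) :
    ∃ (β : Perm {x // x ∈ B}) (l : Perm {x // x ∉ B}), Perm.subtypeCongr β l = g ∧
      (∀ x : {x // x ∈ B}, (β x : Fin n) = g x) ∧ ∀ x : {x // x ∉ B}, (l x : Fin n) = g x := by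
  refine ⟨g.subtypePerm hg, g.subtypePerm fun x => by rw [hg], ?_, fun x => rfl, fun x => rfl⟩
  ext x
  by_cases hx : x ∈ B
  · rw [Perm.subtypeCongr.left_apply _ _ hx]
    rfl
  · rw [Perm.subtypeCongr.right_apply _ _ hx]
    rfl

lemma alt_mem {G : Subgroup (Perm (Fin n))} {B : Finset (Fin n)} (hB : AltOn G B)
    {β : Perm {x // x ∈ B}} (hβ : β ∈ alternatingGroup {x // x ∈ B}) :
    Perm.subtypeCongr β (1 : Perm {x // x ∉ B}) ∈ G := by
  let φ : Perm {x // x ∈ B} →* Perm (Fin n) :=
    (Perm.subtypeCongrHom fun x => x ∈ B).comp (MonoidHom.inl _ _)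
  have h1 : alternatingGroup {x // x ∈ B} ≤ G.comap φ := by
    rw [← Perm.closure_three_cycles_eq_alternating, Subgroup.closure_le]
    intro t ht
    have ht' : Perm.IsThreeCycle t := ht
    obtain ⟨a, ha⟩ : t.support.Nonempty := by
      rw [← Finset.card_pos, ht'.card_support]
      norm_num
    have h1 := ht'.eq_swap_mul_swap_iff_mem_support.2 ha
    have hnd : [a, t a, t (t a)].Nodup := ht'.nodup_iff_mem_support.2 ha
    simp only [List.nodup_cons, List.mem_cons, List.not_mem_nil, or_false, not_or,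
      List.nodup_nil, and_true, not_false_eq_true] at hnd
    obtain ⟨⟨hab, had⟩, hbd⟩ := hnd
    show Perm.subtypeCongr t (1 : Perm {x // x ∉ B}) ∈ G
    rw [h1, ← one_mul (1 : Perm {x // x ∉ B}), ← congr_mul, congr_swap, congr_swap]
    exact hB _ a.2 _ (t a).2 _ (t (t a)).2 (fun e => hab (Subtype.ext e))
      (fun e => hbd (Subtype.ext e)) (fun e => had (Subtype.ext e))
  exact h1 hβ

/-! ### The classification for `n ≥ 2 d + 1` -/

lemma only_if {d : ℕ} (hd : 1 ≤ d) (hn : 2 * d + 1 ≤ n) (G : Subgroup (Perm (Fin n)))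
    (h : ¬ GaloisClosed (n - d) G) :
    ∃ B : Finset (Fin n), Bᶜ.card < d ∧ ∃ L : Subgroup (Perm {x // x ∉ B}),
      G = altProd B L ∨ ProperSubdirect G B L := by
  classical
  obtain ⟨σ, hσ, ha⟩ := (not_closed_iff (by omega) G).1 h
  obtain ⟨B, hBk, hAlt, hinv⟩ := core G σ hσ (n - d) (by rw [Fintype.card_fin]; omega)
    (fun c hc => exists_y ha c hc)
  have hBc : Bᶜ.card < d := by
    rw [Finset.card_compl, Fintype.card_fin]
    omega
  have hiff : ∀ g ∈ G, ∀ x, g x ∈ B ↔ x ∈ B := by
    intro g hg x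
    refine ⟨fun hx => ?_, hinv g hg x⟩
    have := hinv g⁻¹ (G.inv_mem hg) _ hx
    simpa using this
  let L : Subgroup (Perm {x // x ∉ B}) :=
    (G.comap (Perm.subtypeCongrHom fun x => x ∈ B)).map (MonoidHom.snd _ _)
  have hL : ∀ l, l ∈ L ↔ ∃ β : Perm {x // x ∈ B}, Perm.subtypeCongr β l ∈ G := by
    intro l
    simp only [L, Subgroup.mem_map, Subgroup.mem_comap]
    constructor
    · rintro ⟨⟨β, l'⟩, h1, rfl⟩
      exact ⟨β, h1⟩
    · rintro ⟨β, h1⟩
      exact ⟨(β, l), h1, rfl⟩
  refine ⟨B, hBc, L, ?_⟩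
  by_cases hcase : ∀ (β : Perm {x // x ∈ B}) (l : Perm {x // x ∉ B}),
      Perm.subtypeCongr β l ∈ G → β ∈ alternatingGroup {x // x ∈ B}
  · left
    ext g
    rw [mem_altProd]
    constructor
    · intro hg
      obtain ⟨β, l, rfl, -, -⟩ := exists_split (hiff g hg)
      exact ⟨β, hcase β l hg, l, (hL l).2 ⟨β, hg⟩, rfl⟩
    · rintro ⟨β, hβ, l, hl, rfl⟩
      obtain ⟨β', hβ'⟩ := (hL l).1 hl
      have h1 := alt_mem hAlt ((alternatingGroup {x // x ∈ B}).mul_mem hβ
        ((alternatingGroup {x // x ∈ B}).inv_mem (hcase β' l hβ')))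
      have h2 := G.mul_mem h1 hβ'
      rw [congr_mul] at h2
      simpa using h2
  · right
    rw [not_forall] at hcase
    obtain ⟨β₀, hcase⟩ := hcase
    rw [not_forall] at hcase
    obtain ⟨l₀, hcase⟩ := hcase
    rw [Classical.not_imp] at hcase
    obtain ⟨hmem₀, hodd₀⟩ := hcase
    have hproj : ∀ β : Perm {x // x ∈ B}, ∃ l : Perm {x // x ∉ B},
        Perm.subtypeCongr β l ∈ G := by
      intro β
      by_cases hβ : β ∈ alternatingGroup {x // x ∈ B}
      · exact ⟨1, alt_mem hAlt hβ⟩
      · refine ⟨l₀, ?_⟩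
        have h1 : β * β₀⁻¹ ∈ alternatingGroup {x // x ∈ B} := by
          rw [Perm.mem_alternatingGroup] at hβ hodd₀ ⊢
          rw [map_mul, map_inv]
          rcases Int.units_eq_one_or (Perm.sign β) with e | e
          · exact absurd e hβ
          · rcases Int.units_eq_one_or (Perm.sign β₀) with e' | e'
            · exact absurd e' hodd₀
            · rw [e, e']
              rfl
        have h2 := G.mul_mem (alt_mem hAlt h1) hmem₀
        rw [congr_mul] at h2
        simpa using h2
    have hle : G ≤ symProd B L := by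
      intro g hg
      rw [mem_symProd]
      obtain ⟨β, l, rfl, -, -⟩ := exists_split (hiff g hg)
      exact ⟨β, l, (hL l).2 ⟨β, hg⟩, rfl⟩
    refine ⟨lt_of_le_of_ne hle fun heq => hσ ?_, hproj, fun l hl => (hL l).1 hl⟩
    -- `σ` lies in the product
    rw [heq, mem_symProd]
    have hBne : B.Nonempty := Finset.card_pos.1 (by omega)
    obtain ⟨b₀, hb₀⟩ := hBne
    obtain ⟨y, hy, hyc⟩ := exists_y ha (fun x => if x ∈ B then b₀ else x) (by
      refine le_trans (Finset.card_le_card (t := insert b₀ Bᶜ) ?_) ?_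
      · intro v hv
        rw [Finset.mem_image] at hv
        obtain ⟨x, -, rfl⟩ := hv
        split_ifs with hx
        · exact Finset.mem_insert_self _ _
        · exact Finset.mem_insert_of_mem (Finset.mem_compl.2 hx)
      · refine le_trans (Finset.card_insert_le _ _) ?_
        omega)
    have hyB : ∀ x, y x ∈ B ↔ x ∈ B := by
      intro x
      have h1 := hyc x
      split_ifs at h1 with h2 h3 h3
      · exact ⟨fun _ => h3, fun _ => h2⟩
      · exact absurd hb₀ (h1 ▸ h3)
      · exact absurd hb₀ (h1 ▸ h2)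
      · exact ⟨fun h => absurd h h2, fun h => absurd h h3⟩
    have hyfix : ∀ x, x ∉ B → y x = x := by
      intro x hx
      have h1 := hyc x
      simp only [if_neg hx] at h1
      rwa [if_neg (by rw [hyB]; exact hx)] at h1
    obtain ⟨β, l, hβl, -, hlx⟩ := exists_split hyB
    have hl1 : l = 1 := by
      ext x
      rw [hlx x, hyfix x x.2]
      rfl
    obtain ⟨β', l', hβl', -, -⟩ := exists_split (hiff _ (G.inv_mem hy))
    refine ⟨β * β', l', ?_, ?_⟩
    · rw [hL]
      exact ⟨β', by rw [hβl']; exact G.inv_mem hy⟩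
    · have h1 : Perm.subtypeCongr (β * β') l' = y * (σ⁻¹ * y)⁻¹ := by
        rw [← hβl', ← hβl, congr_mul, hl1, one_mul]
      rw [h1]
      group

/-- If `A_B ≤ G` and `B` has more than `k` points then all transpositions of points of `B` lie in
the Galois closure of `G`. -/
lemma not_closed_of_alt {k : ℕ} (hk : 2 ≤ k) {G : Subgroup (Perm (Fin n))} {B : Finset (Fin n)}
    (hB : k < B.card) (hAlt : ∀ β ∈ alternatingGroup {x // x ∈ B},
      Perm.subtypeCongr β (1 : Perm {x // x ∉ B}) ∈ G)
    {x y : {x // x ∈ B}} (hxy : x ≠ y)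
    (hno : Perm.subtypeCongr (swap x y) (1 : Perm {x // x ∉ B}) ∉ G) :
    ¬ GaloisClosed k G := by
  classical
  rw [not_closed_iff hk]
  refine ⟨_, hno, fun a => ?_⟩
  obtain ⟨p, q, hpq, hapq⟩ := Fintype.exists_ne_map_eq_of_card_lt
    (fun z : {x // x ∈ B} => a z) (by simpa using hB)
  refine ⟨Perm.subtypeCongr (swap p q * swap x y) 1, hAlt _ ?_, fun i => ?_⟩
  · rw [Perm.mem_alternatingGroup, map_mul, Perm.sign_swap hpq, Perm.sign_swap hxy]
    rfl
  · have h1 : Perm.subtypeCongr (swap p q * swap x y) (1 : Perm {x // x ∉ B}) =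
        Perm.subtypeCongr (swap p q) (1 : Perm {x // x ∉ B}) *
          Perm.subtypeCongr (swap x y) (1 : Perm {x // x ∉ B}) := by
      rw [congr_mul, one_mul]
    rw [h1, Perm.mul_apply]
    set j := Perm.subtypeCongr (swap x y) (1 : Perm {x // x ∉ B}) i
    rw [congr_swap]
    by_cases hjp : j = p
    · rw [hjp, swap_apply_left]
      exact hapq
    · by_cases hjq : j = q
      · rw [hjq, swap_apply_right]
        exact hapq.symm
      · rw [swap_apply_of_ne_of_ne hjp hjq]

lemma if_dir {d : ℕ} (hn : 2 * d + 1 ≤ n) (G : Subgroup (Perm (Fin n)))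
    (B : Finset (Fin n)) (hB : Bᶜ.card < d) (L : Subgroup (Perm {x // x ∉ B}))
    (h : G = altProd B L ∨ ProperSubdirect G B L) : ¬ GaloisClosed (n - d) G := by
  classical
  have hBc : Bᶜ.card = n - B.card := by rw [Finset.card_compl, Fintype.card_fin]
  have hBn : B.card ≤ n := by simpa using Finset.card_le_univ B
  have hBk : n - d < B.card := by omega
  have hB3 : d + 2 ≤ B.card := by omega
  obtain ⟨x, y, hxy⟩ : ∃ x y : {x // x ∈ B}, x ≠ y := by
    have : 1 < Fintype.card {x // x ∈ B} := by
      rw [Fintype.card_coe]; omega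
    exact Fintype.one_lt_card_iff.1 this
  rcases h with h | h
  · refine not_closed_of_alt (by omega) hBk (fun β hβ => ?_) hxy fun hcon => ?_
    · rw [h, mem_altProd]
      exact ⟨β, hβ, 1, L.one_mem, rfl⟩
    · rw [h, mem_altProd] at hcon
      obtain ⟨β, hβ, l, -, he⟩ := hcon
      rw [(congr_inj he).1, Perm.mem_alternatingGroup, Perm.sign_swap hxy] at hβ
      exact absurd hβ (by decide)
  · obtain ⟨hlt, hproj, hL⟩ := h
    -- the permutations of `B` which lie in `G`
    let φ : Perm {x // x ∈ B} →* Perm (Fin n) :=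
      (Perm.subtypeCongrHom fun x => x ∈ B).comp (MonoidHom.inl _ _)
    let N : Subgroup (Perm {x // x ∈ B}) := G.comap φ
    have hN : ∀ β, β ∈ N ↔ Perm.subtypeCongr β (1 : Perm {x // x ∉ B}) ∈ G := fun β => Iff.rfl
    have hnorm : N.Normal := by
      constructor
      intro β hβ γ
      obtain ⟨l, hl⟩ := hproj γ
      rw [hN] at hβ ⊢
      have := G.mul_mem (G.mul_mem hl hβ) (G.inv_mem hl)
      rw [congr_inv, congr_mul, congr_mul] at this
      simpa using this
    -- not all of them
    have hNtop : N ≠ ⊤ := by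
      intro htop
      refine absurd hlt (not_lt_of_ge fun g hg => ?_)
      rw [mem_symProd] at hg
      obtain ⟨β, l, hl, rfl⟩ := hg
      obtain ⟨β', hβ'⟩ := hL l hl
      have h1 : β * β'⁻¹ ∈ N := by rw [htop]; trivial
      rw [hN] at h1
      have h2 := G.mul_mem h1 hβ'
      rw [congr_mul] at h2
      simpa using h2
    have hAN : alternatingGroup {x // x ∈ B} ≤ N := by
      have hsmall : ∀ f : Perm {x // x ∈ B} → Perm {x // x ∉ B}, ¬ Function.Injective f := by
        intro f hf
        have h1 := Fintype.card_le_of_injective f hf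
        rw [Fintype.card_perm, Fintype.card_perm, Fintype.card_coe,
          Fintype.card_subtype_compl, Fintype.card_coe, Fintype.card_fin] at h1
        have h2 : n - B.card < B.card := by omega
        rcases Nat.eq_zero_or_pos (n - B.card) with h4 | h4
        · rw [h4, Nat.factorial_zero] at h1
          have h5 : B.card ≤ B.card.factorial := Nat.self_le_factorial _
          omega
        · have := (Nat.factorial_lt h4).2 h2
          omega
      by_cases h5 : 5 ≤ B.card
      · refine Perm.alternatingGroup_le_of_normal (by simpa using h5) ?_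
        rw [Subgroup.nontrivial_iff_ne_bot]
        intro hbot
        choose f hf using hproj
        refine hsmall f fun β γ hβγ => ?_
        have h1 := G.mul_mem (hf β) (G.inv_mem (hf γ))
        rw [congr_inv, congr_mul, hβγ, mul_inv_cancel] at h1
        have h2 : β * γ⁻¹ ∈ N := h1
        rw [hbot, Subgroup.mem_bot] at h2
        exact mul_inv_eq_one.1 h2
      · exfalso
        refine hNtop (eq_top_iff.2 fun β _ => ?_)
        obtain ⟨l, hl⟩ := hproj β
        have h1 : Subsingleton {x // x ∉ B} := by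
          rw [← Fintype.card_le_one_iff_subsingleton, Fintype.card_subtype_compl,
            Fintype.card_coe, Fintype.card_fin]
          omega
        have h2 : l = 1 := Subsingleton.elim _ _
        rw [hN]
        rwa [h2] at hl
    refine not_closed_of_alt (by omega) hBk (fun β hβ => hAN hβ) hxy fun hcon => hNtop ?_
    -- an odd element
    rw [eq_top_iff]
    intro β _
    by_cases hβ : β ∈ alternatingGroup {x // x ∈ B}
    · exact hAN hβ
    · have h1 : β * swap x y ∈ alternatingGroup {x // x ∈ B} := by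
        rw [Perm.mem_alternatingGroup] at hβ ⊢
        rw [map_mul, Perm.sign_swap hxy]
        rcases Int.units_eq_one_or (Perm.sign β) with e | e
        · exact absurd e hβ
        · rw [e]
          rfl
      have h2 := N.mul_mem (hAN h1) (N.inv_mem (x := swap x y) hcon)
      simpa using h2

/-! ### The example for `n = 2 d` -/

/-- A permutation of order two without fixed points of `2 d` points has sign `(-1) ^ d`. -/
lemma sign_inv {d : ℕ} (w : Perm (Fin (2 * d))) (hw : ∀ i, w (w i) = i) (hne : ∀ i, w i ≠ i) :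
    Perm.sign w = (-1) ^ d := by
  have h2 : w ^ 2 = 1 := by
    ext i
    rw [pow_two, Perm.mul_apply, hw]
    rfl
  have hct : w.cycleType = Multiset.replicate w.cycleType.card 2 := by
    rw [Multiset.eq_replicate]
    exact ⟨rfl, fun c hc => (Perm.pow_prime_eq_one_iff.1 h2) c hc⟩
  have hsum : w.cycleType.sum = 2 * d := by
    rw [Perm.sum_cycleType]
    have : w.support = Finset.univ := by
      ext i
      simp [hne i]
    rw [this, Finset.card_univ, Fintype.card_fin]
  have hcard : w.cycleType.card = d := by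
    rw [hct, Multiset.sum_replicate, smul_eq_mul] at hsum
    omega
  rw [Perm.sign_of_cycleType, hsum, hcard, pow_add, pow_mul]
  simp

/-- The first `d` of the `2 d` points. -/
def blk (d : ℕ) (i : Fin (2 * d)) : Bool := decide ((i : ℕ) < d)

/-- A subgroup of index two of the wreath product of `S_d` with `S_2`. -/
def ex (d : ℕ) : Subgroup (Perm (Fin (2 * d))) where
  carrier := {σ | (∀ i, blk d (σ i) = blk d i) ∧ Perm.sign σ = 1 ∨
    (∀ i, blk d (σ i) = !blk d i) ∧ Perm.sign σ = (-1) ^ (d + 1)}
  one_mem' := Or.inl ⟨fun _ => rfl, by simp⟩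
  mul_mem' := by
    have hu : ((-1 : ℤˣ) ^ (d + 1)) * (-1) ^ (d + 1) = 1 := Int.units_mul_self _
    rintro σ τ (⟨h1, h2⟩ | ⟨h1, h2⟩) (⟨h3, h4⟩ | ⟨h3, h4⟩)
    · exact Or.inl ⟨fun i => by rw [Perm.mul_apply, h1, h3], by rw [map_mul, h2, h4, one_mul]⟩
    · exact Or.inr ⟨fun i => by rw [Perm.mul_apply, h1, h3], by rw [map_mul, h2, h4, one_mul]⟩
    · exact Or.inr ⟨fun i => by rw [Perm.mul_apply, h1, h3], by rw [map_mul, h2, h4, mul_one]⟩
    · exact Or.inl ⟨fun i => by rw [Perm.mul_apply, h1, h3, Bool.not_not],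
        by rw [map_mul, h2, h4, hu]⟩
  inv_mem' := by
    have hu : ((-1 : ℤˣ) ^ (d + 1)) * (-1) ^ (d + 1) = 1 := Int.units_mul_self _
    rintro σ (⟨h1, h2⟩ | ⟨h1, h2⟩)
    · exact Or.inl ⟨fun i => by simpa using (h1 (σ⁻¹ i)).symm, by rw [map_inv, h2, inv_one]⟩
    · refine Or.inr ⟨fun i => ?_, ?_⟩
      · have := h1 (σ⁻¹ i)
        rw [show σ (σ⁻¹ i) = i by simp] at this
        rw [this, Bool.not_not]
      · rw [map_inv, h2, inv_eq_of_mul_eq_one_left hu]

lemma mem_ex {d : ℕ} {σ : Perm (Fin (2 * d))} : σ ∈ ex d ↔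
    (∀ i, blk d (σ i) = blk d i) ∧ Perm.sign σ = 1 ∨
    (∀ i, blk d (σ i) = !blk d i) ∧ Perm.sign σ = (-1) ^ (d + 1) := Iff.rfl

lemma blk_swap {d : ℕ} {p q : Fin (2 * d)} (h : blk d p = blk d q) (i : Fin (2 * d)) :
    blk d (swap p q i) = blk d i := by
  rw [swap_apply_def]
  split_ifs with h1 h2
  · rw [h1, h]
  · rw [h2, h]
  · rfl

lemma ex_not_closed {d k : ℕ} (hd : 2 ≤ d) (hk : k = d) : ¬ GaloisClosed k (ex d) := by
  classical
  subst hk
  let x0 : Fin (2 * k) := ⟨0, by omega⟩
  let x1 : Fin (2 * k) := ⟨1, by omega⟩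
  have h01 : x0 ≠ x1 := fun h => absurd (congrArg Fin.val h) (by simp [x0, x1])
  have hb0 : blk k x0 = true := by simp [blk, x0]; omega
  have hb1 : blk k x1 = true := by simp [blk, x1]; omega
  rw [not_closed_iff hd]
  refine ⟨swap x0 x1, ?_, fun a => ?_⟩
  · rw [mem_ex]
    rintro (⟨-, h⟩ | ⟨h, -⟩)
    · rw [Perm.sign_swap h01] at h
      exact absurd h (by decide)
    · have := h x0
      rw [swap_apply_left, hb0, hb1] at this
      exact absurd this (by decide)
  · by_cases hinj : ∃ p q : Fin (2 * k), p ≠ q ∧ blk k p = blk k q ∧ a p = a q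
    · obtain ⟨p, q, hpq, hbl, hapq⟩ := hinj
      refine ⟨swap p q * swap x0 x1, Or.inl ⟨fun i => ?_, ?_⟩, fun i => ?_⟩
      · rw [Perm.mul_apply, blk_swap hbl, blk_swap (hb0.trans hb1.symm)]
      · rw [map_mul, Perm.sign_swap hpq, Perm.sign_swap h01]
        rfl
      · rw [Perm.mul_apply]
        set j := swap x0 x1 i
        by_cases hjp : j = p
        · rw [hjp, swap_apply_left]
          exact hapq
        · by_cases hjq : j = q
          · rw [hjq, swap_apply_right]
            exact hapq.symm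
          · rw [swap_apply_of_ne_of_ne hjp hjq]
    · have hinj' : ∀ p q : Fin (2 * k), blk k p = blk k q → a p = a q → p = q := by
        intro p q h1 h2
        by_contra hne
        exact hinj ⟨p, q, hne, h1, h2⟩
      -- each colour occurs in each block
      have hocc : ∀ (b : Bool) (v : Fin k), ∃ j : Fin (2 * k), blk k j = b ∧ a j = v := by
        intro b v
        cases b
        · have hb : ∀ i : Fin k, blk k (⟨(i : ℕ) + k, by omega⟩ : Fin (2 * k)) = false := by
            intro i
            simp [blk]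
          have h1 : Function.Injective fun i : Fin k =>
              a (⟨(i : ℕ) + k, by omega⟩ : Fin (2 * k)) := by
            intro i j hij
            have := hinj' _ _ ((hb i).trans (hb j).symm) hij
            have := congrArg Fin.val this
            simp only at this
            exact Fin.ext (by omega)
          obtain ⟨i, hi⟩ := (Finite.injective_iff_surjective.1 h1) v
          exact ⟨_, hb i, hi⟩
        · have hb : ∀ i : Fin k, blk k (⟨(i : ℕ), by omega⟩ : Fin (2 * k)) = true := by
            intro i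
            simp [blk]
          have h1 : Function.Injective fun i : Fin k =>
              a (⟨(i : ℕ), by omega⟩ : Fin (2 * k)) := by
            intro i j hij
            have := hinj' _ _ ((hb i).trans (hb j).symm) hij
            have := congrArg Fin.val this
            simp only at this
            exact Fin.ext (by omega)
          obtain ⟨i, hi⟩ := (Finite.injective_iff_surjective.1 h1) v
          exact ⟨_, hb i, hi⟩
      choose w hw1 hw2 using fun i : Fin (2 * k) => hocc (!blk k i) (a i)
      have hww : Function.Involutive w := by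
        intro i
        refine hinj' _ _ ?_ ?_
        · rw [hw1, hw1, Bool.not_not]
        · rw [hw2, hw2]
      let W : Perm (Fin (2 * k)) := hww.toPerm w
      have hW : ∀ i, W i = w i := fun i => rfl
      refine ⟨W * swap x0 x1, Or.inr ⟨fun i => ?_, ?_⟩, fun i => ?_⟩
      · rw [Perm.mul_apply, hW, hw1, blk_swap (hb0.trans hb1.symm)]
      · rw [map_mul, Perm.sign_swap h01, sign_inv W hww, pow_succ]
        intro i hi
        have := hw1 i
        rw [← hW, hi] at this
        cases hbi : blk k i <;> simp [hbi] at this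
      · rw [Perm.mul_apply, hW, hw2]

/-- The exchange of the two blocks. -/
lemma exists_exchange (d : ℕ) : ∃ w : Perm (Fin (2 * d)), (∀ i, w (w i) = i) ∧
    ∀ i, blk d (w i) = !blk d i := by
  let f : Fin (2 * d) → Fin (2 * d) := fun i =>
    if h : (i : ℕ) < d then ⟨i + d, by omega⟩ else ⟨i - d, by omega⟩
  have hf : Function.Involutive f := by
    intro i
    have hi := i.2
    by_cases h : (i : ℕ) < d
    · simp [f, h]
    · have h2 : (i : ℕ) - d < d := by omega
      simp only [f, h, dite_false, h2, dite_true]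
      exact Fin.ext (by simp only; omega)
  refine ⟨hf.toPerm f, hf, fun i => ?_⟩
  have hi := i.2
  show blk d (f i) = !blk d i
  by_cases h : (i : ℕ) < d
  · simp [f, blk, h]
  · have h2 : (i : ℕ) - d < d := by omega
    simp [f, blk, h, h2]

lemma ex_trans {d : ℕ} (hd : 2 ≤ d) {x y : Fin (2 * d)} (hxy : blk d y = !blk d x) :
    ∃ g ∈ ex d, g x = y := by
  obtain ⟨w, hw1, hw2⟩ := exists_exchange d
  have hwne : ∀ i, w i ≠ i := by
    intro i hi
    have := hw2 i
    rw [hi] at this
    cases hbi : blk d i <;> simp [hbi] at this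
  have hs := sign_inv w hw1 hwne
  by_cases h : w x = y
  · -- another point in the block of `y`
    obtain ⟨q, hq, hqb⟩ : ∃ q : Fin (2 * d), q ≠ y ∧ blk d q = blk d y := by
      have hy := y.2
      by_cases hyd : (y : ℕ) < d
      · by_cases hy0 : (y : ℕ) = 0
        · refine ⟨⟨1, by omega⟩, fun e => ?_, ?_⟩
          · have := congrArg Fin.val e
            simp only at this
            omega
          · simp only [blk, hyd]
            simp; omega
        · refine ⟨⟨0, by omega⟩, fun e => ?_, ?_⟩
          · have := congrArg Fin.val e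
            simp only at this
            omega
          · simp only [blk, hyd]
            simp; omega
      · by_cases hy0 : (y : ℕ) = d
        · refine ⟨⟨d + 1, by omega⟩, fun e => ?_, ?_⟩
          · have := congrArg Fin.val e
            simp only at this
            omega
          · simp only [blk, hyd]
            simp
        · refine ⟨⟨d, by omega⟩, fun e => ?_, ?_⟩
          · have := congrArg Fin.val e
            simp only at this
            omega
          · simp only [blk, hyd]
            simp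
    have hxy' : x ≠ y := by
      rintro rfl
      cases hbi : blk d x <;> simp [hbi] at hxy
    have hxq : x ≠ q := by
      rintro rfl
      rw [hqb] at hxy
      cases hbi : blk d y <;> simp [hbi] at hxy
    refine ⟨w * swap y q, Or.inr ⟨fun i => ?_, ?_⟩, ?_⟩
    · rw [Perm.mul_apply, hw2, blk_swap hqb.symm]
    · rw [map_mul, hs, Perm.sign_swap hq.symm, pow_succ]
    · rw [Perm.mul_apply, swap_apply_of_ne_of_ne hxy' hxq, h]
  · have hb : blk d (w x) = blk d y := by rw [hw2, hxy]
    refine ⟨swap (w x) y * w, Or.inr ⟨fun i => ?_, ?_⟩, ?_⟩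
    · rw [Perm.mul_apply, blk_swap hb, hw2]
    · rw [map_mul, hs, Perm.sign_swap h, pow_succ, mul_comm]
    · rw [Perm.mul_apply, swap_apply_left]

lemma not_T {d : ℕ} (hd : 2 ≤ d) : ¬ T (2 * d) d := by
  classical
  intro hT
  obtain ⟨B, hB, L, hL⟩ := (hT (ex d)).1 (ex_not_closed hd (by omega))
  have hsub : ex d ≤ symProd B L := by
    rcases hL with h | h
    · intro g hg
      rw [h, mem_altProd] at hg
      obtain ⟨β, -, l, hl, rfl⟩ := hg
      exact mem_symProd.2 ⟨β, l, hl, rfl⟩
    · exact h.1.le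
  -- all points lie in `B`
  have hall : ∀ x, x ∈ B := by
    intro x
    by_contra hx
    have hsubset : (Finset.univ.filter fun y : Fin (2 * d) => blk d y = !blk d x) ⊆ Bᶜ := by
      intro y hy
      rw [Finset.mem_filter] at hy
      obtain ⟨g, hg, rfl⟩ := ex_trans hd hy.2
      obtain ⟨β, l, -, rfl⟩ := mem_symProd.1 (hsub hg)
      rw [Finset.mem_compl, Perm.subtypeCongr.right_apply _ _ hx]
      exact (l ⟨x, hx⟩).2
    have h1 := Finset.card_le_card hsubset
    have h2 : d ≤ (Finset.univ.filter fun y : Fin (2 * d) => blk d y = !blk d x).card := by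
      have : ∀ b : Bool, d ≤ (Finset.univ.filter fun y : Fin (2 * d) => blk d y = b).card := by
        intro b
        refine le_trans (le_of_eq (by simp : d = (Finset.univ : Finset (Fin d)).card)) ?_
        cases b
        · refine Finset.card_le_card_of_injOn (fun i : Fin d =>
            (⟨(i : ℕ) + d, by omega⟩ : Fin (2 * d))) (fun i _ => by simp [blk]) ?_
          intro i _ j _ hij
          have := congrArg Fin.val hij
          simp only at this
          exact Fin.ext (by omega)
        · refine Finset.card_le_card_of_injOn (fun i : Fin d =>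
            (⟨(i : ℕ), by omega⟩ : Fin (2 * d))) (fun i _ => by simp [blk]) ?_
          intro i _ j _ hij
          have := congrArg Fin.val hij
          simp only at this
          exact Fin.ext (by omega)
      exact this _
    omega
  -- an element of `G` which breaks the blocks
  let x0 : {x // x ∈ B} := ⟨⟨0, by omega⟩, hall _⟩
  let x1 : {x // x ∈ B} := ⟨⟨1, by omega⟩, hall _⟩
  let x2 : {x // x ∈ B} := ⟨⟨d, by omega⟩, hall _⟩
  have h01 : x0 ≠ x1 := fun h => absurd (congrArg (fun z => (z.1 : ℕ)) h) (by simp [x0, x1])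
  have h12 : x1 ≠ x2 := fun h => by
    have := congrArg (fun z => (z.1 : ℕ)) h
    simp only [x1, x2] at this
    omega
  have h02 : x0 ≠ x2 := fun h => by
    have := congrArg (fun z => (z.1 : ℕ)) h
    simp only [x0, x2] at this
    omega
  obtain ⟨l, hl⟩ : ∃ l : Perm {x // x ∉ B}, Perm.subtypeCongr (c3 x0 x1 x2) l ∈ ex d := by
    rcases hL with h | h
    · refine ⟨1, ?_⟩
      rw [h, mem_altProd]
      exact ⟨_, c3_even h01 h12, 1, L.one_mem, rfl⟩
    · exact h.2.1 _
  have e0 : Perm.subtypeCongr (c3 x0 x1 x2) l x0 = (x1 : Fin (2 * d)) := by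
    rw [Perm.subtypeCongr.left_apply_subtype, c3, Perm.mul_apply,
      swap_apply_of_ne_of_ne h01 h02, swap_apply_left]
  have e1 : Perm.subtypeCongr (c3 x0 x1 x2) l x1 = (x2 : Fin (2 * d)) := by
    rw [Perm.subtypeCongr.left_apply_subtype, c3, Perm.mul_apply, swap_apply_left,
      swap_apply_of_ne_of_ne h02.symm h12.symm]
  have b0 : blk d x0 = true := by simp [blk, x0]; omega
  have b1 : blk d x1 = true := by simp [blk, x1]; omega
  have b2 : blk d x2 = false := by simp [blk, x2]
  rcases mem_ex.1 hl with ⟨h, -⟩ | ⟨h, -⟩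
  · have := h x1
    rw [e1, b1, b2] at this
    exact absurd this (by decide)
  · have := h x0
    rw [e0, b0, b1] at this
    exact absurd this (by decide)

/-- **Determination of the threshold `f(d)`.** For every `d ≥ 1`, the least `N ≥ d + 2` such that
the statement `T(n, d)` holds for all `n ≥ N` is `2 d + 1`. -/
theorem result (d : ℕ) (hd : 1 ≤ d) :
    IsLeast {N : ℕ | d + 2 ≤ N ∧ ∀ n, N ≤ n → T n d} (2 * d + 1) := by
  refine ⟨⟨by omega, fun n hn G => ⟨only_if hd hn G, ?_⟩⟩, ?_⟩
  · rintro ⟨B, hB, L, h⟩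
    exact if_dir hn G B hB L h
  · rintro N ⟨hN, hNT⟩
    by_contra hlt
    rw [not_le] at hlt
    rcases Nat.lt_or_ge d 2 with h2 | h2
    · omega
    · exact not_T h2 (hNT _ (by omega))

end Pool.Agent.Results.MP_1328b3_al.Threshold
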